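import Pool.Agent.X136.GS.Law

set_option autoImplicit false

/-!
# Expansion versus smoothness of the annealed survival function at criticality

There is an offspring law with mean `2` whose annealed survival function `g` has an order-`2`
expansion at `p_c^+` (with all coefficients zero) but is not of class `C²` at `p_c^+`.  This answers
Q1 of MP_97806e_pr affirmatively.

Definitions: `Pool.Agent.X136.GT.Env` (words of natural numbers are the potential vertices, `Z u` is
the number of children of `u`, the children of `u` are the words `i :: u`, `i < Z u`),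
`Pool.Agent.X136.GT.GW ν` (all `Z u` are independent with law `ν`), `Pool.Agent.X136.GT.bern`
(Bernoulli product law), `Pool.Agent.X136.GS.OpenTo` (the open cluster of the root for bond
percolation), `Pool.Agent.X136.GS.gq` (quenched survival function) and `Pool.Agent.X136.GS.ga`
(annealed survival function).
-/

namespace Pool.Agent.Results.MP_97806e_pr.ExpansionNotSmooth

open MeasureTheory ProbabilityTheory Filter Topology Pool.Agent.X136.GT Pool.Agent.X136.GS

/-- `f` has an order-`k` expansion at `a^+`. -/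
def HasExpansion (f : ℝ → ℝ) (a : ℝ) (k : ℕ) : Prop :=
  ∃ c : ℕ → ℝ, (fun ε : ℝ => f (a + ε) - ∑ j ∈ Finset.range (k + 1), c j * ε ^ j)
    =o[𝓝[>] 0] fun ε : ℝ => ε ^ k

/-- `f` is of class `C^k` at `a^+`. -/
def IsClassC (f : ℝ → ℝ) (a : ℝ) (k : ℕ) : Prop :=
  ∃ δ : ℝ, 0 < δ ∧ ContDiffOn ℝ k f (Set.Ico a (a + δ))

/-- There are an offspring law `ν` with finite mean `m > 1` and a `k ≥ 1` such that the annealed
survival function has an order-`k` expansion at `p_c^+ = (1/m)^+` but is not of class `C^k`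
there. -/
theorem result : ∃ (ν : PMF ℕ) (m : ℝ), 1 < m ∧
    ∑' n : ℕ, ν n * (n : ENNReal) = ENNReal.ofReal m ∧
    ∃ k : ℕ, 1 ≤ k ∧ HasExpansion (ga ν) (1 / m) k ∧ ¬ IsClassC (ga ν) (1 / m) k := by
  refine ⟨lac, 2, by norm_num, lac_mean, 2, by norm_num, ⟨fun _ => 0, ?_⟩, ?_⟩
  · simp only [zero_mul, Finset.sum_const_zero, sub_zero]
    have h1 : (fun ε : ℝ => ga lac (1 / 2 + ε)) =O[𝓝[>] 0] fun ε : ℝ => ε ^ 3 := by
      refine Asymptotics.IsBigO.of_bound 16384 ?_
      have h2 : Set.Ioc (0 : ℝ) (1 / 2) ∈ 𝓝[>] (0 : ℝ) := Ioc_mem_nhdsGT (by norm_num)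
      filter_upwards [h2] with ε hε
      have h3 := ga_cubic (p := 1 / 2 + ε) (by linarith [hε.1]) (by linarith [hε.2])
      rw [add_sub_cancel_left] at h3
      have h4 : 0 ≤ ga lac (1 / 2 + ε) :=
        ga_nonneg lac ⟨1 / 2 + ε, by linarith [hε.1], by linarith [hε.2]⟩
      rw [Real.norm_of_nonneg h4, Real.norm_of_nonneg (pow_nonneg hε.1.le 3)]
      exact h3
    refine h1.trans_isLittleO ?_
    exact (Asymptotics.isLittleO_pow_pow (by norm_num : 2 < 3)).mono nhdsWithin_le_nhds
  · rintro ⟨δ, hδ, hC⟩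
    exact not_C2 hδ (by exact_mod_cast hC)

end Pool.Agent.Results.MP_97806e_pr.ExpansionNotSmooth
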